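import Pool.Agent.Helper67.NO.St3

set_option autoImplicit false

namespace Pool.Agent.Helper24.NO

open Pool.Agent.Helper67.NO
open Matrix
open scoped Matrix.Norms.Frobenius ContDiff Topology

private lemma flow0 {W : Type} [NormedAddCommGroup W] [NormedSpace ℂ W] [CompleteSpace W]
    (T : W →L[ℂ] W) (a : W) :
    ∃ y : ℝ → W, y 0 = a ∧ ∀ s, HasDerivAt y (T (y s)) s := by
  refine ⟨fun s => (NormedSpace.exp (s • T)) a, by simp, fun s => ?_⟩
  have h1 : HasDerivAt (fun u : ℝ => NormedSpace.exp (u • T)) (T * NormedSpace.exp (s • T)) s :=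
    hasDerivAt_exp_smul_const' T s
  have h2 := ((ContinuousLinearMap.apply ℂ W a).restrictScalars ℝ).hasFDerivAt.comp_hasDerivAt s h1
  exact h2

private lemma flow {V : Type} [NormedAddCommGroup V] [NormedSpace ℂ V] [FiniteDimensional ℂ V]
    (L : Submodule ℂ V) (T : V →ₗ[ℂ] V) (hT : ∀ v ∈ L, T v ∈ L) {a : V} (ha : a ∈ L) :
    ∃ y : ℝ → V, y 0 = a ∧ (∀ s, y s ∈ L) ∧ ∀ s, HasDerivAt y (T (y s)) s := by
  have hc : CompleteSpace L := FiniteDimensional.complete ℂ L
  obtain ⟨y, h0, h1⟩ := flow0 (LinearMap.toContinuousLinearMap (T.restrict hT)) ⟨a, ha⟩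
  refine ⟨fun s => y s, by simp [h0], fun s => (y s).2, fun s => ?_⟩
  have h3 := (L.subtypeL.restrictScalars ℝ).hasFDerivAt.comp_hasDerivAt s (h1 s)
  exact h3

private lemma conj_abs {R : Type} [NormedRing R] [NormedAlgebra ℂ R] [CompleteSpace R] (X : R)
    (y : ℝ → R) (hy : ∀ s, HasDerivAt y (X * y s - y s * X) s) (s : ℝ) :
    NormedSpace.exp (s • X) * y 0 * NormedSpace.exp (-(s • X)) = y s := by
  let h : ℝ → R := fun s => NormedSpace.exp (s • (-X)) * y s * NormedSpace.exp (s • X)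
  have hh : ∀ s, HasDerivAt h 0 s := by
    intro s
    have h1 : HasDerivAt (fun u : ℝ => NormedSpace.exp (u • (-X))) (NormedSpace.exp (s • (-X)) * (-X)) s :=
      hasDerivAt_exp_smul_const (-X) s
    have h2 : HasDerivAt (fun u : ℝ => NormedSpace.exp (u • X)) (X * NormedSpace.exp (s • X)) s :=
      hasDerivAt_exp_smul_const' X s
    have h3 := (h1.mul (hy s)).mul h2
    have e : (NormedSpace.exp (s • (-X)) * (-X) * y s + NormedSpace.exp (s • (-X)) * (X * y s - y s * X)) *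
        NormedSpace.exp (s • X) + NormedSpace.exp (s • (-X)) * y s * (X * NormedSpace.exp (s • X)) = 0 := by
      noncomm_ring
    rw [← e]
    exact h3
  have hc : h s = h 0 :=
    is_const_of_deriv_eq_zero (fun s => (hh s).differentiableAt) (fun s => (hh s).deriv) s 0
  have h0 : h 0 = y 0 := by
    simp only [h, zero_smul, NormedSpace.exp_zero, one_mul, mul_one]
  let _ : NormedAlgebra ℚ R := NormedAlgebra.restrictScalars ℚ ℂ R
  have u1 : NormedSpace.exp (s • X) * NormedSpace.exp (-(s • X)) = 1 := by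
    rw [← NormedSpace.exp_add_of_commute (Commute.neg_right (Commute.refl (s • X))), add_neg_cancel,
      NormedSpace.exp_zero]
  rw [← h0, ← hc]
  simp only [h, smul_neg]
  have e3 : NormedSpace.exp (s • X) * (NormedSpace.exp (-(s • X)) * y s * NormedSpace.exp (s • X)) *
      NormedSpace.exp (-(s • X)) = (NormedSpace.exp (s • X) * NormedSpace.exp (-(s • X))) * y s *
        (NormedSpace.exp (s • X) * NormedSpace.exp (-(s • X))) := by noncomm_ring
  rw [e3, u1, one_mul, mul_one]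

private lemma conj_memR {R : Type} [NormedRing R] [NormedAlgebra ℂ R] [FiniteDimensional ℂ R]
    (L : Submodule ℂ R) (hL : ∀ X ∈ L, ∀ Y ∈ L, X * Y - Y * X ∈ L) {X A : R} (hX : X ∈ L) (hA : A ∈ L)
    (s : ℝ) : NormedSpace.exp (s • X) * A * NormedSpace.exp (-(s • X)) ∈ L := by
  have hc : CompleteSpace R := FiniteDimensional.complete ℂ R
  obtain ⟨y, h0, h1, h2⟩ := flow L (LinearMap.mulLeft ℂ X - LinearMap.mulRight ℂ X)
    (fun v hv => by simpa using hL X hX v hv) hA
  have := conj_abs X y (fun s => by simpa using h2 s) s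
  rw [h0] at this
  rw [this]
  exact h1 s

section

set_option linter.unusedSectionVars false

variable {ι κ : Type} [Fintype ι] [DecidableEq ι] [Fintype κ] [DecidableEq κ]

private lemma conj_mem (L : Submodule ℂ (Matrix ι ι ℂ)) (hL : ∀ X ∈ L, ∀ Y ∈ L, br X Y ∈ L)
    {X A : Matrix ι ι ℂ} (hX : X ∈ L) (hA : A ∈ L) (s : ℝ) :
    NormedSpace.exp (s • X) * A * (NormedSpace.exp (s • X))⁻¹ ∈ L := by
  have h := conj_memR (R := Matrix ι ι ℂ) L hL hX hA s
  rw [← Matrix.exp_neg]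
  exact h

private lemma DHm_mem (h1 : StNIL) (h3 : StMON) (lev : κ → ℕ) (L : Submodule ℂ (Matrix ι ι ℂ))
    (hI : IfA ι lev) (hG : GoodL L) {A X : Matrix ι ι ℂ} (hA : A ∈ L) (hR : RT lev A) (hX : X ∈ L) :
    DHm lev A X ∈ L := by
  have hs : DifferentiableAt ℝ (fun g : Matrix ι ι ℂ => Hm lev (g * A * g⁻¹)) 1 :=
    (hI.smoothH A hR).differentiableAt (by simp)
  have d1 : HasDerivAt (fun s : ℝ => NormedSpace.exp (s • X)) X 0 := by
    have h := hasDerivAt_exp_smul_const' X (0 : ℝ)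
    rw [zero_smul, NormedSpace.exp_zero, mul_one] at h
    exact h
  have e0 : NormedSpace.exp ((0 : ℝ) • X) = 1 := by simp
  have hs' : HasFDerivAt (fun g : Matrix ι ι ℂ => Hm lev (g * A * g⁻¹))
      (fderiv ℝ (fun g : Matrix ι ι ℂ => Hm lev (g * A * g⁻¹)) 1) (NormedSpace.exp ((0 : ℝ) • X)) := by
    rw [e0]; exact hs.hasFDerivAt
  have d2 := hs'.comp_hasDerivAt (0 : ℝ) d1
  have hk : ∀ s : ℝ, ((fun g : Matrix ι ι ℂ => Hm lev (g * A * g⁻¹)) ∘
      fun s : ℝ => NormedSpace.exp (s • X)) s ∈ L := by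
    intro s
    have m1 := conj_mem L hG.lie hX hA s
    have m2 := ((h1 ι κ lev A hR).2.1) (NormedSpace.exp (s • X)) (Matrix.isUnit_exp _)
    exact h3 ι κ lev L hI hG _ m1 m2
  have hcl : IsClosed (L : Set (Matrix ι ι ℂ)) := Submodule.closed_of_finiteDimensional L
  have ht := hasDerivAt_iff_tendsto_slope.1 d2
  have hmem : ∀ s : ℝ, slope ((fun g : Matrix ι ι ℂ => Hm lev (g * A * g⁻¹)) ∘
      fun s : ℝ => NormedSpace.exp (s • X)) 0 s ∈ L := by
    intro s
    rw [slope_def_module]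
    exact Submodule.smul_of_tower_mem L _ (L.sub_mem (hk s) (hk 0))
  have := hcl.mem_of_tendsto ht (Filter.Eventually.of_forall fun s => hmem s)
  exact this

private lemma herm1 (Y : Matrix ι ι ℂ) : ((1 / 2 : ℂ) • (Y + Yᴴ)).IsHermitian := by
  rw [Matrix.IsHermitian, conjTranspose_smul, conjTranspose_add, conjTranspose_conjTranspose, add_comm Yᴴ Y]
  congr 1
  simp

private lemma herm2 (Y : Matrix ι ι ℂ) : ((-(Complex.I / 2)) • (Y - Yᴴ)).IsHermitian := by
  rw [Matrix.IsHermitian, conjTranspose_smul, conjTranspose_sub, conjTranspose_conjTranspose]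
  have e : star (-(Complex.I / 2)) = Complex.I / 2 := by
    simp [Complex.conj_I]
    ring
  rw [e, neg_smul, ← smul_neg, neg_sub]

private lemma dec (Y : Matrix ι ι ℂ) :
    Y = (1 / 2 : ℂ) • (Y + Yᴴ) + Complex.I • ((-(Complex.I / 2)) • (Y - Yᴴ)) := by
  rw [smul_smul]
  have e : Complex.I * -(Complex.I / 2) = 1 / 2 := by
    have := Complex.I_mul_I
    linear_combination -this / 2
  rw [e, ← smul_add]
  have e2 : Y + Yᴴ + (Y - Yᴴ) = (2 : ℂ) • Y := by rw [two_smul]; abel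
  rw [e2, smul_smul]
  norm_num

end

theorem pRES (h1 : StNIL) (h2 : StPRO) (h3 : StMON) : StRES := by
  intro ι κ _ _ _ _ lev L hI hG A hA hR B hB X hX
  obtain ⟨P, hP, hPs, -, hP0⟩ := h2 ι L hG.star
  have hH : Hm lev A ∈ L := h3 ι κ lev L hI hG A hA hR
  have hD : ∀ Z ∈ L, DHm lev A Z ∈ L := fun Z hZ => DHm_mem h1 h3 lev L hI hG hA hR hZ
  -- (ii)
  have key1 : ∀ Z ∈ L, Z.IsHermitian → ∀ Y : Matrix ι ι ℂ, Y.IsHermitian → P Y = 0 → B Z Y = 0 := by
    intro Z hZ hZh Y hYh hY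
    have r1 := hB.real Z Y hZh hYh
    have r2 : trace (Y * DHm lev A Z) = 0 := by
      rw [trace_mul_comm]; exact (hP0 Y).1 hY _ (hD Z hZ)
    rw [r2, Complex.zero_re] at r1
    have i1 := hB.imag Z Y hZh hYh
    have i2 : trace (br Z Y * Hm lev A) = 0 := by
      have : trace (br Z Y * Hm lev A) = trace (br (Hm lev A) Z * Y) := by
        rw [br, br, sub_mul, sub_mul, trace_sub, trace_sub]
        have t1 : trace (Z * Y * Hm lev A) = trace (Hm lev A * Z * Y) := by
          rw [trace_mul_comm, ← mul_assoc]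
        have t2 : trace (Y * Z * Hm lev A) = trace (Z * Hm lev A * Y) := by
          rw [mul_assoc, trace_mul_comm]
        rw [t1, t2]
      rw [this]
      exact (hP0 Y).1 hY _ (hG.lie _ hH _ hZ)
    rw [i2, hB.symm Z Y, sub_eq_zero] at i1
    have i3 : (B Z Y).im = 0 := by
      have := congrArg Complex.im i1
      have h' : (star (B Z Y)).im = -(B Z Y).im := rfl
      rw [h'] at this
      linarith
    apply Complex.ext
    · rw [Complex.zero_re]; linarith
    · rw [i3, Complex.zero_im]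
  -- (iii)
  have key2 : ∀ Z ∈ L, Z.IsHermitian → ∀ Y : Matrix ι ι ℂ, P Y = 0 → B Z Y = 0 := by
    intro Z hZ hZh Y hY
    have eY : B Z Y = B Z ((1 / 2 : ℂ) • (Y + Yᴴ)) + Complex.I * B Z ((-(Complex.I / 2)) • (Y - Yᴴ)) := by
      conv_lhs => rw [dec Y]
      rw [hB.add, hB.smul Complex.I]
    rw [eY]
    have p1 : P ((1 / 2 : ℂ) • (Y + Yᴴ)) = 0 := by
      rw [map_smul, map_add, hPs, hY]; simp
    have p2 : P ((-(Complex.I / 2)) • (Y - Yᴴ)) = 0 := by
      rw [map_smul, map_sub, hPs, hY]; simp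
    rw [key1 Z hZ hZh _ (herm1 Y) p1, key1 Z hZ hZh _ (herm2 Y) p2]
    simp
  have key3 : ∀ Z ∈ L, ∀ Y : Matrix ι ι ℂ, P Y = 0 → B Y Z = 0 := by
    intro Z hZ Y hY
    have m1 : (1 / 2 : ℂ) • (Z + Zᴴ) ∈ L := L.smul_mem _ (L.add_mem hZ (hG.star Z hZ))
    have m2 : (-(Complex.I / 2)) • (Z - Zᴴ) ∈ L := L.smul_mem _ (L.sub_mem hZ (hG.star Z hZ))
    have eZ : B Y Z = B Y ((1 / 2 : ℂ) • (Z + Zᴴ)) + Complex.I * B Y ((-(Complex.I / 2)) • (Z - Zᴴ)) := by
      conv_lhs => rw [dec Z]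
      rw [hB.add, hB.smul Complex.I]
    rw [eZ]
    have q1 : B Y ((1 / 2 : ℂ) • (Z + Zᴴ)) = 0 := by
      rw [hB.symm ((1 / 2 : ℂ) • (Z + Zᴴ)) Y, key2 _ m1 (herm1 Z) Y hY, star_zero]
    have q2 : B Y ((-(Complex.I / 2)) • (Z - Zᴴ)) = 0 := by
      rw [hB.symm ((-(Complex.I / 2)) • (Z - Zᴴ)) Y, key2 _ m2 (herm2 Z) Y hY, star_zero]
    rw [q1, q2]
    simp
  obtain ⟨X', hX'⟩ := hB.quat X
  refine ⟨P X', hP.mem X', fun Y hY => ?_⟩
  have hZ : P (X' - P X') = 0 := by
    rw [map_sub, hP.fix (P X') (hP.mem X'), sub_self]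
  have dX : X' = P X' + (X' - P X') := by abel
  constructor
  · rw [← (hX' Y).1, hB.symm Y X', hB.symm Y (P X')]
    conv_rhs => rw [dX, hB.add]
    have q : B Y (X' - P X') = 0 := by
      rw [hB.symm (X' - P X') Y, key3 Y hY _ hZ, star_zero]
    rw [q, add_zero]
  · rw [← (hX' Y).2]
    have t : trace (A * br (X' - P X') Y) = 0 := by
      have : trace (A * br (X' - P X') Y) = trace (br Y A * (X' - P X')) := by
        generalize X' - P X' = Z
        have t1 : trace (A * (Z * Y)) = trace (Y * A * Z) := by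
          rw [← mul_assoc, trace_mul_comm, ← mul_assoc]
        have t2 : trace (A * (Y * Z)) = trace (A * Y * Z) := by
          rw [← mul_assoc]
        rw [br, br, mul_sub, sub_mul, trace_sub, trace_sub, t1, t2]
      rw [this]
      exact (hP0 _).1 hZ _ (hG.lie _ hY _ hA)
    have e : br X' Y = br (P X') Y + br (X' - P X') Y := by
      simp only [br]
      noncomm_ring
    rw [e, mul_add, trace_add, t, add_zero]

end Pool.Agent.Helper24.NO
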